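import Mathlib

namespace Pool.Agent.Results.MP_460c01_lc.StateBound

open Finset

/-- Finite trees over the ranked alphabet `(A, r)`. -/
inductive Tree {A : Type} (r : A → ℕ) : Type
  | node (a : A) (ch : Fin (r a) → Tree r) : Tree r

/-- Trees over `(A, r)` whose leaves may also be variables from `X`. -/
inductive Term {A : Type} (r : A → ℕ) (X : Type) : Type
  | var (x : X) : Term r X
  | node (a : A) (ch : Fin (r a) → Term r X) : Term r X

/-- Height: number of nodes on a longest root-to-leaf path. -/
def Tree.height {A : Type} {r : A → ℕ} : Tree r → ℕ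
  | .node _ ch => 1 + univ.sup fun i => (ch i).height

/-- Substituting possibly undefined trees for the variables: the result is defined iff the value of
every variable occurring in the term is defined. -/
def evalO {B X : Type} {r : B → ℕ} (ρ : X → Option (Tree r)) : Term r X → Option (Tree r)
  | .var x => ρ x
  | .node b ch => if h : ∀ i, (evalO ρ (ch i)).isSome then
      some (.node b fun i => (evalO ρ (ch i)).get (h i)) else none

/-- Deterministic top-down tree transducer with state set `Q`: at most one rule for each `(q, a)`,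
its right side is a tree over the output alphabet with leaves `q'(x_i)`. -/
structure DT {A B : Type} (rA : A → ℕ) (rB : B → ℕ) (Q : Type) where
  init : Q
  rule : (q : Q) → (a : A) → Option (Term rB (Q × Fin (rA a)))

/-- The output of state `q` on an input tree (`none` = undefined). -/
def DT.run {A B Q : Type} {rA : A → ℕ} {rB : B → ℕ} (M : DT rA rB Q) : Tree rA → Q → Option (Tree rB)
  | .node a ch, q => (M.rule q a).bind (evalO fun p => M.run (ch p.2) p.1)

/-- The function realized by `M` (`none` = undefined). -/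
def DT.tau {A B Q : Type} {rA : A → ℕ} {rB : B → ℕ} (M : DT rA rB Q) (s : Tree rA) :
    Option (Tree rB) := M.run s M.init

section terms
variable {B X Y : Type} {r : B → ℕ}

def Tree.size : Tree r → ℕ
  | .node _ ch => 1 + ∑ i, (ch i).size

def ev (w : X → Tree r) : Term r X → Tree r
  | .var x => w x
  | .node b ch => .node b fun i => ev w (ch i)

def Occ (x : X) : Term r X → Prop
  | .var y => y = x
  | .node _ ch => ∃ i, Occ x (ch i)

def sub (θ : X → Term r Y) : Term r X → Term r Y
  | .var x => θ x
  | .node b ch => .node b fun i => sub θ (ch i)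

def emb : Tree r → Term r X
  | .node b ch => .node b fun i => emb (ch i)

theorem ev_sub (θ : X → Term r Y) (w : Y → Tree r) (t : Term r X) :
    ev w (sub θ t) = ev (fun x => ev w (θ x)) t := by
  induction t with
  | var x => rfl
  | node b ch ih => simp only [sub, ev, ih]

theorem occ_sub (θ : X → Term r Y) (y : Y) (t : Term r X) (h : Occ y (sub θ t)) :
    ∃ x, Occ x t ∧ Occ y (θ x) := by
  induction t with
  | var x => exact ⟨x, rfl, h⟩
  | node b ch ih =>
    obtain ⟨i, hi⟩ := h
    obtain ⟨x, h1, h2⟩ := ih i hi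
    exact ⟨x, ⟨i, h1⟩, h2⟩

theorem size_ch {b : B} (ch : Fin (r b) → Tree r) (i) : (ch i).size < (Tree.node b ch).size := by
  have : (ch i).size ≤ ∑ i, (ch i).size :=
    single_le_sum (f := fun i => (ch i).size) (fun _ _ => Nat.zero_le _) (mem_univ i)
  simp only [Tree.size]; omega

theorem occ_size (w : X → Tree r) (x : X) (t : Term r X) (h : Occ x t) :
    (w x).size ≤ (ev w t).size := by
  induction t with
  | var y => cases h; exact le_refl _
  | node b ch ih =>
    obtain ⟨i, hi⟩ := h
    exact (ih i hi).trans (size_ch (fun i => ev w (ch i)) i).le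

theorem no_occ {w : X → Tree r} {x : X} {u : Term r X} (h : u ≠ .var x) (e : w x = ev w u) :
    ¬ Occ x u := by
  intro ho
  cases u with
  | var y => cases ho; exact h rfl
  | node b ch =>
    obtain ⟨i, hi⟩ := ho
    have h1 := occ_size w x _ hi
    have h2 := size_ch (fun i => ev w (ch i)) i
    rw [e] at h1
    simp only [ev] at h1
    omega

theorem disagree (a : Term r X) : ∀ (b : Term r X), a ≠ b → (∃ w, ev w a = ev w b) →
    ∃ x u, ¬ Occ x u ∧ (Occ x a ∨ Occ x b) ∧ (∀ y, Occ y u → Occ y a ∨ Occ y b) ∧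
      ∀ w, ev w a = ev w b → w x = ev w u := by
  induction a with
  | var x =>
    rintro b hb ⟨w, hw⟩
    exact ⟨x, b, no_occ hb.symm hw, Or.inl rfl, fun y hy => Or.inr hy, fun w h => h⟩
  | node c ch ih =>
    rintro b hb ⟨w, hw⟩
    cases b with
    | var x => exact ⟨x, _, no_occ hb hw.symm, Or.inr rfl, fun y hy => Or.inl hy, fun w h => h.symm⟩
    | node c' ch' =>
      simp only [ev, Tree.node.injEq] at hw
      obtain ⟨rfl, hw⟩ := hw
      have hw := eq_of_heq hw
      have : ∃ i, ch i ≠ ch' i := by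
        by_contra hn
        push Not at hn
        exact hb (by rw [funext hn])
      obtain ⟨i, hi⟩ := this
      obtain ⟨x, u, h1, h2, h3, h4⟩ := ih i _ hi ⟨w, congrFun hw i⟩
      refine ⟨x, u, h1, h2.imp (fun h => ⟨i, h⟩) (fun h => ⟨i, h⟩),
        fun y hy => (h3 y hy).imp (fun h => ⟨i, h⟩) (fun h => ⟨i, h⟩), fun w' hw' => h4 w' ?_⟩
      simp only [ev, Tree.node.injEq, heq_eq_eq, true_and] at hw'
      exact congrFun hw' i

theorem chain (w : ℕ → X → Tree r) : ∀ (n : ℕ) (Y : Finset X) (I : Finset ℕ) (a b : ℕ → Term r X),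
    Y.card = n → (∀ i ∈ I, ∀ y, Occ y (a i) ∨ Occ y (b i) → y ∈ Y) →
    (∀ i ∈ I, ev (w i) (a i) ≠ ev (w i) (b i)) →
    (∀ i ∈ I, ∀ j ∈ I, i < j → ev (w j) (a i) = ev (w j) (b i)) → I.card ≤ n + 1 := by
  classical
  intro n
  induction n using Nat.strong_induction_on with
  | _ n ih =>
    intro Y I a b hY hv hne heq
    by_contra hc
    have hI : I.Nonempty := card_pos.1 (by omega)
    set i0 := I.min' hI with hi0
    have m0 : i0 ∈ I := min'_mem _ _
    have lt : ∀ j ∈ I.erase i0, i0 < j := fun j hj =>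
      lt_of_le_of_ne (min'_le _ _ (mem_of_mem_erase hj)) (ne_of_mem_erase hj).symm
    have hce := card_erase_of_mem m0
    obtain ⟨j0, hj0⟩ : (I.erase i0).Nonempty := card_pos.1 (by omega)
    obtain ⟨x, u, h1, h2, h3, h4⟩ := disagree (a i0) (b i0) (fun e => hne i0 m0 (by rw [e]))
      ⟨w j0, heq i0 m0 j0 (mem_of_mem_erase hj0) (lt j0 hj0)⟩
    have hx : x ∈ Y := hv i0 m0 x h2
    have hcy := card_erase_of_mem hx
    have hpos : 0 < Y.card := card_pos.2 ⟨x, hx⟩
    let θ : X → Term r X := fun y => if y = x then u else .var y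
    have hθ : ∀ j ∈ I.erase i0, ∀ t, ev (w j) (sub θ t) = ev (w j) t := by
      intro j hj t
      rw [ev_sub]
      congr 1
      ext y
      by_cases hy : y = x
      · simp only [θ, if_pos hy]
        rw [hy]; exact (h4 _ (heq i0 m0 j (mem_of_mem_erase hj) (lt j hj))).symm
      · simp only [θ, if_neg hy]; rfl
    have hocc : ∀ t, (∀ y, Occ y t → y ∈ Y) → ∀ y, Occ y (sub θ t) → y ∈ Y.erase x := by
      intro t ht y hy
      obtain ⟨z, g1, g2⟩ := occ_sub θ y t hy
      by_cases hz : z = x
      · simp only [θ, if_pos hz] at g2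
        exact mem_erase.2 ⟨fun e => h1 (e ▸ g2), hv i0 m0 y (h3 y g2)⟩
      · simp only [θ, if_neg hz] at g2
        cases g2
        exact mem_erase.2 ⟨hz, ht _ g1⟩
    have := ih (n - 1) (by omega) (Y.erase x) (I.erase i0) (fun i => sub θ (a i))
      (fun i => sub θ (b i)) (by omega) ?_ ?_ ?_
    · omega
    · intro i hi y hy
      have hi' := mem_of_mem_erase hi
      rcases hy with hy | hy
      · exact hocc _ (fun y hy => hv i hi' y (Or.inl hy)) y hy
      · exact hocc _ (fun y hy => hv i hi' y (Or.inr hy)) y hy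
    · intro i hi
      rw [hθ i hi, hθ i hi]; exact hne i (mem_of_mem_erase hi)
    · intro i hi j hj hij
      rw [hθ j hj, hθ j hj]; exact heq i (mem_of_mem_erase hi) j (mem_of_mem_erase hj) hij

theorem evalO_isSome (ρ : X → Option (Tree r)) (t : Term r X) :
    (evalO ρ t).isSome ↔ ∀ x, Occ x t → (ρ x).isSome := by
  induction t with
  | var y => simp [evalO, Occ]
  | node b ch ih =>
    simp only [evalO, Occ]
    split_ifs with h
    · simp only [Option.isSome_some, true_iff]
      rintro x ⟨i, hi⟩
      exact (ih i).1 (h i) x hi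
    · simp only [Option.isSome_none, Bool.false_eq_true, false_iff]
      exact fun h' => h fun i => (ih i).2 fun x hx => h' x ⟨i, hx⟩

theorem evalO_eq (ρ : X → Option (Tree r)) (d : Tree r) (t : Term r X) (h : (evalO ρ t).isSome) :
    evalO ρ t = some (ev (fun x => (ρ x).getD d) t) := by
  induction t with
  | var y =>
    simp only [evalO, ev] at h ⊢
    obtain ⟨u, hu⟩ := Option.isSome_iff_exists.1 h
    simp [hu]
  | node b ch ih =>
    simp only [evalO] at h ⊢
    split_ifs at h ⊢ with h'
    · simp only [ev, Option.some.injEq, Tree.node.injEq, heq_eq_eq, true_and]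
      ext i
      exact Option.get_of_eq_some _ (ih i (h' i))
    · simp at h

theorem evalO_emb (ρ : X → Option (Tree r)) (u : Tree r) : evalO ρ (emb u) = some u := by
  induction u with
  | node b ch ih => simp [emb, evalO, ih]

theorem evalO_comp (ξ : X → Option (Term r Y)) (t : Term r X) : ∃ η : Option (Term r Y),
    ∀ ρ : Y → Option (Tree r), evalO (fun x => (ξ x).bind (evalO ρ)) t = η.bind (evalO ρ) := by
  induction t with
  | var x => exact ⟨ξ x, fun ρ => rfl⟩
  | node b ch ih =>
    choose η hη using ih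
    by_cases h : ∀ i, (η i).isSome
    · refine ⟨some (.node b fun i => (η i).get (h i)), fun ρ => ?_⟩
      have : ∀ i, evalO (fun x => (ξ x).bind (evalO ρ)) (ch i) = evalO ρ ((η i).get (h i)) := by
        intro i
        rw [hη]
        obtain ⟨u, hu⟩ := Option.isSome_iff_exists.1 (h i)
        simp [hu]
      simp only [evalO, Option.bind_some, this]
    · refine ⟨none, fun ρ => ?_⟩
      push Not at h
      obtain ⟨i, hi⟩ := h
      simp only [evalO, Option.bind_none]
      rw [dif_neg]
      intro h'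
      have := h' i
      rw [hη, Option.not_isSome_iff_eq_none.1 hi] at this
      simp at this
end terms

section ctx
variable {A B Q : Type} {rA : A → ℕ} {rB : B → ℕ}

def Rep (M : DT rA rB Q) (C : Tree rA → Tree rA) : Prop :=
  ∀ q, ∃ ζ : Option (Term rB Q), ∀ t, M.run (C t) q = ζ.bind (evalO (M.run t))

theorem rep_id (M : DT rA rB Q) : Rep M id := fun q => ⟨some (.var q), fun _ => rfl⟩

theorem rep_step (M : DT rA rB Q) {C : Tree rA → Tree rA} (h : Rep M C) (a : A)
    (ch : Fin (rA a) → Tree rA) (i : Fin (rA a)) :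
    Rep M (fun t => .node a (Function.update ch i (C t))) := by
  intro q
  choose ζ hζ using h
  cases hr : M.rule q a with
  | none => exact ⟨none, fun t => by simp [DT.run, hr]⟩
  | some z =>
    obtain ⟨η, hη⟩ := evalO_comp (fun p : Q × Fin (rA a) =>
      if p.2 = i then ζ p.1 else (M.run (ch p.2) p.1).map emb) z
    refine ⟨η, fun t => ?_⟩
    rw [← hη]
    simp only [DT.run, hr, Option.bind_some]
    congr 1
    ext1 p
    by_cases hp : p.2 = i
    · simp [hp, hζ]
    · simp only [Function.update_of_ne hp, if_neg hp]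
      cases M.run (ch p.2) p.1 <;> simp [evalO_emb]

theorem path (P : (Tree rA → Tree rA) → Prop) (h0 : P id)
    (h1 : ∀ C, P C → ∀ a ch i, P fun t => .node a (Function.update ch i (C t))) (s : Tree rA) :
    ∃ (p : ℕ → Tree rA) (C : ℕ → Tree rA → Tree rA), ∀ i < s.height, P (C i) ∧ C i (p i) = s ∧
      (p i).size ≤ s.size ∧ ∀ j < s.height, i < j → (p j).size < (p i).size := by
  induction s with
  | node a ch ih =>
    by_cases hz : (univ.sup fun i => (ch i).height) = 0
    · refine ⟨fun _ => .node a ch, fun _ => id, fun i hi => ⟨h0, rfl, le_refl _, fun j hj hij => ?_⟩⟩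
      simp only [Tree.height, hz] at hj; omega
    have hne : (univ : Finset (Fin (rA a))).Nonempty := by
      by_contra hn
      rw [not_nonempty_iff_eq_empty] at hn
      exact hz (by rw [hn]; rfl)
    obtain ⟨k, -, hk⟩ := exists_mem_eq_sup univ hne fun i => (ch i).height
    obtain ⟨p, C, hp⟩ := ih k
    have hs := size_ch ch k
    refine ⟨fun i => Nat.casesOn i (.node a ch) p,
      fun i => Nat.casesOn i id fun i t => .node a (Function.update ch k (C i t)), fun i hi => ?_⟩
    simp only [Tree.height, hk] at hi ⊢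
    cases i with
    | zero =>
      refine ⟨h0, rfl, le_refl _, fun j hj hij => ?_⟩
      cases j with
      | zero => omega
      | succ j => exact lt_of_le_of_lt (hp j (by omega)).2.2.1 hs
    | succ i =>
      obtain ⟨g1, g2, g3, g4⟩ := hp i (by omega)
      refine ⟨h1 _ g1 a ch k, by simp [g2], g3.trans hs.le, fun j hj hij => ?_⟩
      cases j with
      | zero => omega
      | succ j => exact g4 j (by omega) (by omega)

theorem mono_step {C : Tree rA → Tree rA} (h : ∀ t t', t.size < t'.size → (C t).size < (C t').size)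
    (a : A) (ch : Fin (rA a) → Tree rA) (i : Fin (rA a)) (t t' : Tree rA) (ht : t.size < t'.size) :
    (Tree.node a (Function.update ch i (C t))).size <
      (Tree.node a (Function.update ch i (C t'))).size := by
  simp only [Tree.size]
  have e : ∀ u, ∑ j, (Function.update ch i u j).size = u.size + ∑ j ∈ univ.erase i, (ch j).size := by
    intro u
    rw [← add_sum_erase _ _ (mem_univ i), Function.update_self]
    congr 1
    exact sum_congr rfl fun j hj => by rw [Function.update_of_ne (ne_of_mem_erase hj)]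
  rw [e, e]
  have := h t t' ht
  omega
end ctx

theorem result {A B : Type} [Fintype A] [Fintype B] (rA : A → ℕ) (rB : B → ℕ) (Q₁ Q₂ : Type)
    [Fintype Q₁] [Fintype Q₂] (M₁ : DT rA rB Q₁) (M₂ : DT rA rB Q₂)
    (h : ∀ s : Tree rA, s.height ≤ 2 ^ (Fintype.card Q₁ + Fintype.card Q₂) *
      (Fintype.card Q₁ + Fintype.card Q₂ + 1) → M₁.tau s = M₂.tau s) :
    M₁.tau = M₂.tau := by
  classical
  funext s
  induction hn : s.size using Nat.strong_induction_on generalizing s with
  | _ n ih =>
  by_contra hs
  have hh := mt (h s) hs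
  obtain ⟨p, C, hp⟩ := path (fun C => Rep M₁ C ∧ Rep M₂ C ∧
      ∀ t t', t.size < t'.size → (C t).size < (C t').size) ⟨rep_id _, rep_id _, fun _ _ h => h⟩
    (fun C hC a ch i => ⟨rep_step _ hC.1 a ch i, rep_step _ hC.2.1 a ch i, mono_step hC.2.2 a ch i⟩) s
  let v : ℕ → Q₁ ⊕ Q₂ → Option (Tree rB) := fun i => Sum.elim (M₁.run (p i)) (M₂.run (p i))
  obtain ⟨D, -, hD⟩ := exists_lt_card_fiber_of_mul_lt_card_of_maps_to (s := range s.height)
    (t := (univ : Finset (Q₁ ⊕ Q₂ → Bool))) (f := fun i x => (v i x).isSome)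
    (n := Fintype.card Q₁ + Fintype.card Q₂ + 1) (fun _ _ => mem_univ _) (by simpa using hh)
  set I : Finset ℕ := {i ∈ range s.height | (fun x => (v i x).isSome) = D} with hI
  have mI : ∀ i ∈ I, i < s.height ∧ ∀ x, (v i x).isSome = D x := by
    intro i hi
    simp only [hI, mem_filter, mem_range] at hi
    exact ⟨hi.1, congrFun hi.2⟩
  have ag : ∀ i ∈ I, ∀ j ∈ I, i < j → M₁.tau (C i (p j)) = M₂.tau (C i (p j)) := by
    intro i hi j hj hij
    obtain ⟨g1, g2, -, g4⟩ := hp i (mI i hi).1
    refine ih _ ?_ _ rfl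
    have := g1.2.2 _ _ (g4 j (mI j hj).1 hij)
    rw [g2] at this; omega
  have z1 : ∀ i, ∃ ζ : Option (Term rB Q₁), i ∈ I → ∀ t, M₁.tau (C i t) = ζ.bind (evalO (M₁.run t)) := by
    intro i
    by_cases hi : i ∈ I
    · obtain ⟨ζ, hζ⟩ := (hp i (mI i hi).1).1.1 M₁.init; exact ⟨ζ, fun _ => hζ⟩
    · exact ⟨none, fun h => absurd h hi⟩
  have z2 : ∀ i, ∃ ζ : Option (Term rB Q₂), i ∈ I → ∀ t, M₂.tau (C i t) = ζ.bind (evalO (M₂.run t)) := by
    intro i
    by_cases hi : i ∈ I
    · obtain ⟨ζ, hζ⟩ := (hp i (mI i hi).1).1.2.1 M₂.init; exact ⟨ζ, fun _ => hζ⟩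
    · exact ⟨none, fun h => absurd h hi⟩
  choose ζ₁ h₁ using z1
  choose ζ₂ h₂ using z2
  have d1 : ∀ i ∈ I, ∀ j ∈ I, (M₁.tau (C i (p j))).isSome ↔ (M₁.tau s).isSome := by
    intro i hi j hj
    conv_rhs => rw [← (hp i (mI i hi).1).2.1]
    rw [h₁ i hi, h₁ i hi]
    cases ζ₁ i with
    | none => simp
    | some z =>
      simp only [Option.bind_some, evalO_isSome]
      refine forall_congr' fun x => imp_congr_right fun _ => ?_
      have a := (mI i hi).2 (.inl x); have b := (mI j hj).2 (.inl x)
      simp only [v, Sum.elim_inl] at a b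
      rw [a, b]
  have d2 : ∀ i ∈ I, ∀ j ∈ I, (M₂.tau (C i (p j))).isSome ↔ (M₂.tau s).isSome := by
    intro i hi j hj
    conv_rhs => rw [← (hp i (mI i hi).1).2.1]
    rw [h₂ i hi, h₂ i hi]
    cases ζ₂ i with
    | none => simp
    | some z =>
      simp only [Option.bind_some, evalO_isSome]
      refine forall_congr' fun x => imp_congr_right fun _ => ?_
      have a := (mI i hi).2 (.inr x); have b := (mI j hj).2 (.inr x)
      simp only [v, Sum.elim_inr] at a b
      rw [a, b]
  have both : (M₁.tau s).isSome ∧ (M₂.tau s).isSome := by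
    obtain ⟨i, hi, j, hj, hij⟩ := one_lt_card.1 (show 1 < I.card by omega)
    have : (M₁.tau s).isSome ↔ (M₂.tau s).isSome := by
      rcases lt_or_gt_of_ne hij with hl | hl
      · rw [← d1 i hi j hj, ← d2 i hi j hj, ag i hi j hj hl]
      · rw [← d1 j hj i hi, ← d2 j hj i hi, ag j hj i hi hl]
    revert this hs
    cases M₁.tau s <;> cases M₂.tau s <;> simp
  obtain ⟨d, -⟩ := Option.isSome_iff_exists.1 both.1
  let w : ℕ → Q₁ ⊕ Q₂ → Tree rB := fun i x => (v i x).getD d
  let a : ℕ → Term rB (Q₁ ⊕ Q₂) := fun i => sub (fun q => .var (.inl q)) ((ζ₁ i).getD (emb d))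
  let b : ℕ → Term rB (Q₁ ⊕ Q₂) := fun i => sub (fun q => .var (.inr q)) ((ζ₂ i).getD (emb d))
  have e1 : ∀ i ∈ I, ∀ j ∈ I, M₁.tau (C i (p j)) = some (ev (w j) (a i)) := by
    intro i hi j hj
    have := (d1 i hi j hj).2 both.1
    rw [h₁ i hi] at this ⊢
    simp only [a, ev_sub]
    revert this
    cases ζ₁ i with
    | none => simp
    | some z => exact fun h => evalO_eq _ d z h
  have e2 : ∀ i ∈ I, ∀ j ∈ I, M₂.tau (C i (p j)) = some (ev (w j) (b i)) := by
    intro i hi j hj
    have := (d2 i hi j hj).2 both.2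
    rw [h₂ i hi] at this ⊢
    simp only [b, ev_sub]
    revert this
    cases ζ₂ i with
    | none => simp
    | some z => exact fun h => evalO_eq _ d z h
  have := chain w _ univ I a b rfl (fun _ _ _ _ => mem_univ _) ?_ ?_
  · simp only [card_univ, Fintype.card_sum] at this; omega
  · intro i hi e
    apply hs
    rw [← (hp i (mI i hi).1).2.1, e1 i hi i hi, e2 i hi i hi, e]
  · intro i hi j hj hij
    have := ag i hi j hj hij
    rw [e1 i hi j hj, e2 i hi j hj] at this
    exact Option.some.inj this

end Pool.Agent.Results.MP_460c01_lc.StateBound
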